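import Pool.Agent.T6.H55.LU.Stm

/-!
Module ANG of the project MP_507414_an: the angle functions.
-/

set_option autoImplicit false

open MeasureTheory Filter Topology Set
open scoped ENNReal NNReal

namespace Pool.Agent.T6.H55.LU

namespace ModAng

theorem S_cont : Continuous S := by unfold S; fun_prop
theorem c_cont : Continuous c := by unfold c; fun_prop

theorem S_deriv (t : ℝ) : HasDerivAt S (Real.pi * c t) t := by
  unfold S c
  have h := (Real.hasDerivAt_sin (Real.pi * t)).comp t ((hasDerivAt_id t).const_mul Real.pi)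
  simp only [mul_one] at h
  rw [mul_comm]
  exact h

theorem pi_pos' : (0 : ℝ) < Real.pi := Real.pi_pos

theorem if_locally_const {t : ℝ} (h : S t ≠ 0) :
    ∀ᶠ r in 𝓝 t, (if S r < 0 then (1 / 2 : ℝ) else 0) = if S t < 0 then 1 / 2 else 0 := by
  rcases lt_or_gt_of_ne h with h | h
  · filter_upwards [S_cont.continuousAt.eventually_lt_const h] with r hr
    rw [if_pos hr, if_pos h]
  · filter_upwards [S_cont.continuousAt.eventually_const_lt h] with r hr
    rw [if_neg (not_lt.2 hr.le), if_neg (not_lt.2 h.le)]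

theorem Th_x {x y : ℝ} (h : S y ≠ 0) : HasDerivAt (fun t => Th t y) (T1 x y) x := by
  have h1 : HasDerivAt (fun t => S t / S y) (Real.pi * c x / S y) x := (S_deriv x).div_const _
  have h2 := h1.arctan
  have h3 := (h2.div_const (2 * Real.pi)).const_sub (1 / 4 + (if S y < 0 then (1 / 2 : ℝ) else 0))
  have e : T1 x y = -(1 / (1 + (S x / S y) ^ 2) * (Real.pi * c x / S y) / (2 * Real.pi)) := by
    have hr : 0 < S x ^ 2 + S y ^ 2 := by positivity
    have hp := Real.pi_pos.ne'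
    have e1 : 1 + (S x / S y) ^ 2 = (S x ^ 2 + S y ^ 2) / S y ^ 2 := by field_simp; ring
    rw [T1, rho, e1]
    field_simp
  rw [e]
  exact h3

theorem Th_y {x y : ℝ} (h : S y ≠ 0) : HasDerivAt (fun t => Th x t) (T2 x y) y := by
  have h1 : HasDerivAt (fun t => S x / S t) (-(S x * (Real.pi * c y)) / S y ^ 2) y := by
    have := (hasDerivAt_const y (S x)).fun_div (S_deriv y) h
    simpa using this
  have h2 := h1.arctan
  have h3 := (h2.div_const (2 * Real.pi)).const_sub (1 / 4 + (if S y < 0 then (1 / 2 : ℝ) else 0))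
  have e : T2 x y = -(1 / (1 + (S x / S y) ^ 2) * (-(S x * (Real.pi * c y)) / S y ^ 2) /
      (2 * Real.pi)) := by
    have hr : 0 < S x ^ 2 + S y ^ 2 := by positivity
    have hp := Real.pi_pos.ne'
    have e1 : 1 + (S x / S y) ^ 2 = (S x ^ 2 + S y ^ 2) / S y ^ 2 := by field_simp; ring
    rw [T2, rho, e1]
    field_simp
  rw [e]
  refine h3.congr_of_eventuallyEq ?_
  filter_upwards [if_locally_const h] with r hr
  rw [Th, hr]

theorem Th'_y {x y : ℝ} (h : S x ≠ 0) : HasDerivAt (fun t => Th' x t) (T2 x y) y := by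
  have h1 : HasDerivAt (fun t => S t / S x) (Real.pi * c y / S x) y := (S_deriv y).div_const _
  have h2 := h1.arctan
  have h3 := (h2.div_const (2 * Real.pi)).const_add (if S x < 0 then (1 / 2 : ℝ) else 0)
  have e : T2 x y = 1 / (1 + (S y / S x) ^ 2) * (Real.pi * c y / S x) / (2 * Real.pi) := by
    have hr : 0 < S x ^ 2 + S y ^ 2 := by positivity
    have hp := Real.pi_pos.ne'
    have e1 : 1 + (S y / S x) ^ 2 = (S x ^ 2 + S y ^ 2) / S x ^ 2 := by field_simp
    rw [T2, rho, e1]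
    field_simp
  rw [e]
  exact h3

theorem Th'_x {x y : ℝ} (h : S x ≠ 0) : HasDerivAt (fun t => Th' t y) (T1 x y) x := by
  have h1 : HasDerivAt (fun t => S y / S t) (-(S y * (Real.pi * c x)) / S x ^ 2) x := by
    have := (hasDerivAt_const x (S y)).fun_div (S_deriv x) h
    simpa using this
  have h2 := h1.arctan
  have h3 := (h2.div_const (2 * Real.pi)).const_add (if S x < 0 then (1 / 2 : ℝ) else 0)
  have e : T1 x y = 1 / (1 + (S y / S x) ^ 2) * (-(S y * (Real.pi * c x)) / S x ^ 2) /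
      (2 * Real.pi) := by
    have hr : 0 < S x ^ 2 + S y ^ 2 := by positivity
    have hp := Real.pi_pos.ne'
    have e1 : 1 + (S y / S x) ^ 2 = (S x ^ 2 + S y ^ 2) / S x ^ 2 := by field_simp
    rw [T1, rho, e1]
    field_simp
  rw [e]
  refine h3.congr_of_eventuallyEq ?_
  filter_upwards [if_locally_const h] with r hr
  rw [Th', hr]

theorem S_smooth : ContDiff ℝ ((⊤ : ℕ∞) : WithTop ℕ∞) S := by
  unfold S; exact Real.contDiff_sin.comp (contDiff_const.mul contDiff_id)

theorem smooth {q : ℝ × ℝ} (h : S q.2 ≠ 0) :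
    ContDiffAt ℝ ((⊤ : ℕ∞) : WithTop ℕ∞) (fun q : ℝ × ℝ => Th q.1 q.2) q := by
  have h1 : ContDiffAt ℝ ((⊤ : ℕ∞) : WithTop ℕ∞)
      (fun r : ℝ × ℝ => 1 / 4 + (if S q.2 < 0 then (1 / 2 : ℝ) else 0) -
        Real.arctan (S r.1 / S r.2) / (2 * Real.pi)) q := by
    refine contDiffAt_const.sub (ContDiffAt.div_const ?_ _)
    refine (Real.contDiff_arctan.contDiffAt).comp q ?_
    refine ContDiffAt.div ?_ ?_ h
    · exact S_smooth.contDiffAt.comp q contDiffAt_fst
    · exact S_smooth.contDiffAt.comp q contDiffAt_snd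
  refine h1.congr_of_eventuallyEq ?_
  have := (continuous_snd.tendsto q).eventually (if_locally_const h)
  filter_upwards [this] with r hr
  rw [Th, hr]

/-! cosine and sine -/

theorem two_pi_Th (x y : ℝ) : 2 * Real.pi * Th x y =
    Real.pi / 2 - Real.arctan (S x / S y) + if S y < 0 then Real.pi else 0 := by
  have hp := Real.pi_pos.ne'
  rw [Th]
  split_ifs <;> field_simp <;> ring

theorem sqrt_rho {x y : ℝ} (h : S y ≠ 0) :
    Real.sqrt (rho x y) = |S y| * Real.sqrt (1 + (S x / S y) ^ 2) := by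
  rw [← Real.sqrt_sq_eq_abs, ← Real.sqrt_mul (sq_nonneg _), rho]
  congr 1
  field_simp
  ring

theorem cos_Th {x y : ℝ} (h : S y ≠ 0) :
    Real.sqrt (rho x y) * Real.cos (2 * Real.pi * Th x y) = S x := by
  have hs : Real.sqrt (1 + (S x / S y) ^ 2) ≠ 0 := by positivity
  rw [two_pi_Th, sqrt_rho h]
  rcases lt_or_gt_of_ne h with h1 | h1
  · rw [if_pos h1, Real.cos_add_pi, Real.cos_pi_div_two_sub, Real.sin_arctan, abs_of_neg h1]
    field_simp
  · rw [if_neg (not_lt.2 h1.le), add_zero, Real.cos_pi_div_two_sub, Real.sin_arctan,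
      abs_of_pos h1]
    field_simp

theorem sin_Th {x y : ℝ} (h : S y ≠ 0) :
    Real.sqrt (rho x y) * Real.sin (2 * Real.pi * Th x y) = S y := by
  have hs : Real.sqrt (1 + (S x / S y) ^ 2) ≠ 0 := by positivity
  rw [two_pi_Th, sqrt_rho h]
  rcases lt_or_gt_of_ne h with h1 | h1
  · rw [if_pos h1, Real.sin_add_pi, Real.sin_pi_div_two_sub, Real.cos_arctan, abs_of_neg h1]
    field_simp
  · rw [if_neg (not_lt.2 h1.le), add_zero, Real.sin_pi_div_two_sub, Real.cos_arctan,
      abs_of_pos h1]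
    field_simp

theorem arctan_bd (u : ℝ) : -(1 / 4) < Real.arctan u / (2 * Real.pi) ∧
    Real.arctan u / (2 * Real.pi) < 1 / 4 := by
  have hp := Real.pi_pos
  constructor
  · rw [lt_div_iff₀ (by positivity)]
    linarith [Real.neg_pi_div_two_lt_arctan u]
  · rw [div_lt_iff₀ (by positivity)]
    linarith [Real.arctan_lt_pi_div_two u]

theorem mem (x y : ℝ) : 0 ≤ Th x y ∧ Th x y ≤ 1 := by
  have h := arctan_bd (S x / S y)
  rw [Th]
  split_ifs <;> constructor <;> linarith [h.1, h.2]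

theorem mem' (x y : ℝ) : -1 / 4 ≤ Th' x y ∧ Th' x y ≤ 3 / 4 := by
  have h := arctan_bd (S y / S x)
  rw [Th']
  split_ifs <;> constructor <;> linarith [h.1, h.2]

theorem eq {x y : ℝ} (hx : S x ≠ 0) (hy : S y ≠ 0) : Th' x y = Th x y ∨ Th' x y = Th x y - 1 := by
  have hp := Real.pi_pos.ne'
  have hinv : S y / S x = (S x / S y)⁻¹ := by rw [inv_div]
  rw [Th, Th', hinv]
  rcases lt_or_gt_of_ne hx with h1 | h1 <;> rcases lt_or_gt_of_ne hy with h2 | h2
  · left
    rw [if_pos h1, if_pos h2, Real.arctan_inv_of_pos (div_pos_of_neg_of_neg h1 h2)]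
    field_simp; ring
  · left
    rw [if_pos h1, if_neg (not_lt.2 h2.le), Real.arctan_inv_of_neg (div_neg_of_neg_of_pos h1 h2)]
    field_simp; ring
  · right
    rw [if_neg (not_lt.2 h1.le), if_pos h2, Real.arctan_inv_of_neg (div_neg_of_pos_of_neg h1 h2)]
    field_simp; ring
  · left
    rw [if_neg (not_lt.2 h1.le), if_neg (not_lt.2 h2.le),
      Real.arctan_inv_of_pos (div_pos h1 h2)]
    field_simp; ring

theorem meas : Measurable (fun q : ℝ × ℝ => Th q.1 q.2) := by
  unfold Th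
  have h1 : Measurable fun q : ℝ × ℝ => S q.1 := S_cont.measurable.comp measurable_fst
  have h2 : Measurable fun q : ℝ × ℝ => S q.2 := S_cont.measurable.comp measurable_snd
  refine (measurable_const.add ?_).sub ?_
  · exact Measurable.ite (measurableSet_lt h2 measurable_const) measurable_const measurable_const
  · exact (Real.measurable_arctan.comp (h1.div h2)).div_const _

theorem meas' : Measurable (fun q : ℝ × ℝ => Th' q.1 q.2) := by
  unfold Th'
  have h1 : Measurable fun q : ℝ × ℝ => S q.1 := S_cont.measurable.comp measurable_fst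
  have h2 : Measurable fun q : ℝ × ℝ => S q.2 := S_cont.measurable.comp measurable_snd
  refine Measurable.add ?_ ?_
  · exact Measurable.ite (measurableSet_lt h1 measurable_const) measurable_const measurable_const
  · exact (Real.measurable_arctan.comp (h2.div h1)).div_const _

theorem c_le (t : ℝ) : |c t| ≤ 1 := Real.abs_cos_le_one _

theorem aux_le {a b C : ℝ} (ha : a ≠ 0) (hb : b ≠ 0) (hC : |C| ≤ 1) :
    |1 / 2 * C * b / (a ^ 2 + b ^ 2)| ^ (3 / 2 : ℝ) ≤
      |a| ^ (-(3 / 4) : ℝ) * |b| ^ (-(3 / 4) : ℝ) := by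
  have ha' : 0 < |a| := abs_pos.2 ha
  have hb' : 0 < |b| := abs_pos.2 hb
  have hr : 0 < a ^ 2 + b ^ 2 := by positivity
  set t := |1 / 2 * C * b / (a ^ 2 + b ^ 2)| with ht
  have ht0 : 0 ≤ t := abs_nonneg _
  have h1 : t ^ 2 ≤ (|a| * |b|)⁻¹ := by
    rw [ht, sq_abs, div_pow, div_le_iff₀ (by positivity), inv_mul_eq_div, le_div_iff₀ (by positivity)]
    have hC2 : C ^ 2 ≤ 1 := by rw [← sq_abs]; exact pow_le_one₀ (abs_nonneg _) hC
    have e1 : (1 / 2 * C * b) ^ 2 ≤ 1 / 4 * (a ^ 2 + b ^ 2) := by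
      have : (1 / 2 * C * b) ^ 2 = 1 / 4 * (C ^ 2 * b ^ 2) := by ring
      rw [this]
      nlinarith [sq_nonneg a, sq_nonneg b]
    have e2 : |a| * |b| ≤ a ^ 2 + b ^ 2 := by
      rw [← sq_abs a, ← sq_abs b]; nlinarith [sq_nonneg (|a| - |b|)]
    have e3 : 0 ≤ |a| * |b| := by positivity
    calc (1 / 2 * C * b) ^ 2 * (|a| * |b|) ≤ (1 / 4 * (a ^ 2 + b ^ 2)) * (a ^ 2 + b ^ 2) :=
          mul_le_mul e1 e2 e3 (by positivity)
      _ ≤ (a ^ 2 + b ^ 2) ^ 2 := by nlinarith [sq_nonneg (a ^ 2 + b ^ 2)]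
  have h2 : t ^ (3 / 2 : ℝ) = (t ^ 2) ^ (3 / 4 : ℝ) := by
    rw [← Real.rpow_natCast t 2, ← Real.rpow_mul ht0]; norm_num
  have h3 : |a| ^ (-(3 / 4) : ℝ) * |b| ^ (-(3 / 4) : ℝ) = ((|a| * |b|)⁻¹) ^ (3 / 4 : ℝ) := by
    rw [← Real.mul_rpow ha'.le hb'.le, Real.rpow_neg (by positivity), Real.inv_rpow (by positivity)]
  rw [h2, h3]
  exact Real.rpow_le_rpow (by positivity) h1 (by norm_num)

theorem T1_le {x y : ℝ} (hx : S x ≠ 0) (hy : S y ≠ 0) :
    |T1 x y| ^ (3 / 2 : ℝ) ≤ |S x| ^ (-(3 / 4) : ℝ) * |S y| ^ (-(3 / 4) : ℝ) := by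
  have := aux_le hx hy (c_le x)
  have e : |T1 x y| = |1 / 2 * c x * S y / (S x ^ 2 + S y ^ 2)| := by
    rw [T1, rho, ← abs_neg]; congr 1; ring
  rw [e]; exact this

theorem T2_le {x y : ℝ} (hx : S x ≠ 0) (hy : S y ≠ 0) :
    |T2 x y| ^ (3 / 2 : ℝ) ≤ |S x| ^ (-(3 / 4) : ℝ) * |S y| ^ (-(3 / 4) : ℝ) := by
  have := aux_le hy hx (c_le y)
  have e : |T2 x y| = |1 / 2 * c y * S x / (S y ^ 2 + S x ^ 2)| := by
    rw [T2, rho, add_comm]
  rw [e, mul_comm (|S x| ^ _)]; exact this

theorem ae_ne (N : ℕ) (hN : 0 < N) : ∀ᵐ x : ℝ, S (N * x) ≠ 0 := by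
  have hN' : (N : ℝ) ≠ 0 := by positivity
  have hc : (Set.range fun k : ℤ => (k : ℝ) / N).Countable := Set.countable_range _
  have h0 : volume (Set.range fun k : ℤ => (k : ℝ) / N) = 0 := hc.measure_zero _
  rw [← compl_mem_ae_iff] at h0
  filter_upwards [h0] with x hx h
  apply hx
  obtain ⟨k, hk⟩ := Real.sin_eq_zero_iff.1 h
  refine ⟨k, ?_⟩
  have hp := Real.pi_pos.ne'
  have : (k : ℝ) = N * x := by
    have : (k : ℝ) * Real.pi = (N * x) * Real.pi := by rw [hk]; ring
    exact mul_right_cancel₀ hp this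
  simp only [this]
  field_simp

/-! the integral -/

/-- the periodic function -/
noncomputable def ff (t : ℝ) : ℝ := |S t| ^ (-(3 / 4) : ℝ)

theorem ff_periodic : Function.Periodic ff 1 := by
  intro t
  have : S (t + 1) = - S t := by
    rw [S, S, mul_add, mul_one, Real.sin_add_pi]
  rw [ff, ff, this, abs_neg]

theorem ff_meas : Measurable ff := by
  unfold ff
  exact (S_cont.measurable.abs).pow_const _

theorem ff_nonneg (t : ℝ) : 0 ≤ ff t := Real.rpow_nonneg (abs_nonneg _) _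

theorem S_ge {t : ℝ} (h0 : 0 ≤ t) (h1 : t ≤ 1 / 2) : 2 * t ≤ S t := by
  have hp := Real.pi_pos
  have := Real.mul_le_sin (x := Real.pi * t) (by positivity) (by nlinarith)
  rw [S]
  calc 2 * t = 2 / Real.pi * (Real.pi * t) := by field_simp
    _ ≤ _ := this

theorem S_symm (t : ℝ) : S (1 - t) = S t := by
  rw [S, S, mul_sub, mul_one, Real.sin_pi_sub]

theorem ff_le {t : ℝ} (h0 : 0 < t) (h1 : t < 1) :
    ff t ≤ t ^ (-(3 / 4) : ℝ) + (1 - t) ^ (-(3 / 4) : ℝ) := by
  have key : ∀ r : ℝ, 0 < r → r ≤ 1 / 2 → ff r ≤ r ^ (-(3 / 4) : ℝ) := by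
    intro r h0 h1
    have h2 := S_ge h0.le h1
    have h3 : r ≤ |S r| := by
      rw [abs_of_pos (by linarith)]; linarith
    exact Real.rpow_le_rpow_of_nonpos h0 h3 (by norm_num)
  rcases le_total t (1 / 2) with h | h
  · have := key t h0 h
    have h2 : 0 ≤ (1 - t) ^ (-(3 / 4) : ℝ) := Real.rpow_nonneg (by linarith) _
    linarith
  · have := key (1 - t) (by linarith) (by linarith)
    have h2 : 0 ≤ t ^ (-(3 / 4) : ℝ) := Real.rpow_nonneg (by linarith) _
    have e : ff (1 - t) = ff t := by rw [ff, ff, S_symm]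
    linarith

theorem ff_int01 : IntervalIntegrable ff volume 0 1 := by
  have h1 : IntervalIntegrable (fun t : ℝ => t ^ (-(3 / 4) : ℝ)) volume 0 1 :=
    intervalIntegral.intervalIntegrable_rpow' (by norm_num)
  have h2 : IntervalIntegrable (fun t : ℝ => (1 - t) ^ (-(3 / 4) : ℝ)) volume 0 1 := by
    have := h1.comp_sub_left 1
    simpa using this.symm
  have h3 := h1.add h2
  rw [intervalIntegrable_iff_integrableOn_Ioo_of_le zero_le_one] at h3 ⊢
  refine Integrable.mono' h3 ff_meas.aestronglyMeasurable ?_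
  refine (ae_restrict_iff' measurableSet_Ioo).2 (Eventually.of_forall fun t ht => ?_)
  rw [Real.norm_eq_abs, abs_of_nonneg (ff_nonneg t)]
  exact ff_le ht.1 ht.2

theorem intg : ∃ κ : ℝ, 0 < κ ∧ ∀ N : ℕ, 0 < N →
    IntegrableOn (fun x : ℝ => |S (N * x)| ^ (-(3 / 4) : ℝ)) (Set.Icc 0 1) ∧
    ∫ x in Set.Icc (0 : ℝ) 1, |S (N * x)| ^ (-(3 / 4) : ℝ) = κ := by
  have hall : ∀ a b : ℝ, IntervalIntegrable ff volume a b :=
    ff_periodic.intervalIntegrable₀ one_ne_zero ff_int01
  refine ⟨∫ t in (0 : ℝ)..1, ff t, ?_, fun N hN => ?_⟩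
  · have h1 : (1 : ℝ) = ∫ _ in (0 : ℝ)..1, (1 : ℝ) := by simp
    have h2 : ∫ _ in (0 : ℝ)..1, (1 : ℝ) ≤ ∫ t in (0 : ℝ)..1, ff t := by
      refine intervalIntegral.integral_mono_ae zero_le_one
        (by simp) ff_int01 ?_
      filter_upwards [ae_ne 1 one_pos] with t ht
      rw [Nat.cast_one, one_mul] at ht
      have h3 : |S t| ≤ 1 := Real.abs_sin_le_one _
      exact Real.one_le_rpow_of_pos_of_le_one_of_nonpos (abs_pos.2 ht) h3 (by norm_num)
    linarith
  · have hN' : (N : ℝ) ≠ 0 := by positivity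
    have hi : IntervalIntegrable (fun x : ℝ => ff (N * x)) volume 0 1 := by
      have := (hall 0 N).comp_mul_left (c := (N : ℝ))
      simpa [hN'] using this
    have hv : ∫ x in (0 : ℝ)..1, ff (N * x) = ∫ t in (0 : ℝ)..1, ff t := by
      rw [intervalIntegral.integral_comp_mul_left (fun t => ff t) hN', mul_zero, mul_one]
      have := ff_periodic.intervalIntegral_add_zsmul_eq (N : ℤ) 0 hall
      simp only [zero_add] at this
      have e : ((N : ℤ) • (1 : ℝ)) = (N : ℝ) := by simp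
      rw [e] at this
      rw [this]
      simp
      field_simp
    constructor
    · rw [integrableOn_Icc_iff_integrableOn_Ioc,
        ← intervalIntegrable_iff_integrableOn_Ioc_of_le zero_le_one]
      exact hi
    · rw [integral_Icc_eq_integral_Ioc, ← intervalIntegral.integral_of_le zero_le_one]
      exact hv

end ModAng

theorem ang : Ang where
  Th_x := ModAng.Th_x
  Th_y := ModAng.Th_y
  Th'_y := ModAng.Th'_y
  Th'_x := fun h _ => ModAng.Th'_x h
  smooth := ModAng.smooth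
  cos_Th := ModAng.cos_Th
  sin_Th := ModAng.sin_Th
  mem := ModAng.mem
  mem' := ModAng.mem'
  eq := ModAng.eq
  meas := ModAng.meas
  meas' := ModAng.meas'
  T1_le := ModAng.T1_le
  T2_le := ModAng.T2_le
  intg := ModAng.intg
  ae_ne := ModAng.ae_ne

end Pool.Agent.T6.H55.LU
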